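import Pool.Agent.Y208.BH.Stm

/-! # Linear combinations of words (project BH, helper208) -/

set_option autoImplicit false

open scoped commutatorElement

namespace Pool.Agent.Y721.BH

open Y208.BH

/-- commuting involutions extend to the group algebra -/
theorem exists_lin {M Γ : Type} [Monoid M] [Group Γ] (X : M → Γ) (sq : ∀ w, X w * X w = 1)
    (comm : ∀ v w, Commute (X v) (X w)) :
    ∃ f : MonoidAlgebra (ZMod 2) M → Γ, (∀ a b, f (a + b) = f a * f b) ∧
      ∀ w, f (MonoidAlgebra.single w 1) = X w := by
  classical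
  have hcomm : ∀ x ∈ Set.range X, ∀ y ∈ Set.range X, x * y = y * x := by
    rintro _ ⟨v, rfl⟩ _ ⟨w, rfl⟩
    exact comm v w
  letI : CommGroup (Subgroup.closure (Set.range X)) := Subgroup.closureCommGroupOfComm hcomm
  have h2 : ∀ x : Subgroup.closure (Set.range X), x * x = 1 := by
    rintro ⟨x, hx⟩
    apply Subtype.ext
    show x * x = 1
    induction hx using Subgroup.closure_induction with
    | mem x hx =>
      obtain ⟨w, rfl⟩ := hx
      exact sq w
    | one => simp
    | mul x y hx hy h1 h2 =>
      have h3 : x * y = y * x := congrArg Subtype.val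
        (mul_comm (⟨x, hx⟩ : Subgroup.closure (Set.range X)) ⟨y, hy⟩)
      calc x * y * (x * y) = x * (y * x) * y := by group
        _ = x * (x * y) * y := by rw [h3]
        _ = (x * x) * (y * y) := by group
        _ = 1 := by rw [h1, h2, one_mul]
    | inv x hx h1 =>
      rw [← mul_inv_rev, h1, inv_one]
  letI : Module (ZMod 2) (Additive (Subgroup.closure (Set.range X))) :=
    AddCommGroup.zmodModule (n := 2) (fun x => by
      rw [two_nsmul]
      exact h2 (Additive.toMul x))
  let L := Finsupp.linearCombination (ZMod 2) (fun w : M =>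
    Additive.ofMul (⟨X w, Subgroup.subset_closure ⟨w, rfl⟩⟩ : Subgroup.closure (Set.range X)))
  refine ⟨fun a => ((L a.coeff).toMul : Subgroup.closure (Set.range X)), ?_, ?_⟩
  · intro a b
    have : L (a + b).coeff = L a.coeff + L b.coeff := by
      rw [MonoidAlgebra.coeff_add, map_add]
    simp only [this]
    rfl
  · intro w
    have : L (MonoidAlgebra.single w (1 : ZMod 2)).coeff = Additive.ofMul
        (⟨X w, Subgroup.subset_closure ⟨w, rfl⟩⟩ : Subgroup.closure (Set.range X)) := by
      rw [MonoidAlgebra.coeff_single]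
      simp [L]
    simp only [this]
    rfl

theorem induct {M : Type} {P : MonoidAlgebra (ZMod 2) M → Prop} (h0 : P 0)
    (h1 : ∀ w, P (MonoidAlgebra.single w 1)) (h2 : ∀ a b, P a → P b → P (a + b))
    (a : MonoidAlgebra (ZMod 2) M) : P a := by
  induction a using MonoidAlgebra.induction_linear with
  | zero => exact h0
  | add x y hx hy => exact h2 x y hx hy
  | single m r =>
    have : r = 0 ∨ r = 1 := by
      revert r
      decide
    rcases this with rfl | rfl
    · rw [MonoidAlgebra.single_zero]
      exact h0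
    · exact h1 m

theorem f_zero {M Γ : Type} [Group Γ] {f : MonoidAlgebra (ZMod 2) M → Γ}
    (h : ∀ a b, f (a + b) = f a * f b) : f 0 = 1 := by
  have := h 0 0
  rw [add_zero] at this
  exact (mul_eq_left.mp this.symm)

/-- `[g g', h] = [g, h] [g', h]` if `g` commutes with `[g', h]` and this with `[g, h]` -/
theorem comm_left {Γ : Type} [Group Γ] {g g' h : Γ} (h1 : Commute g ⁅g', h⁆)
    (h2 : Commute ⁅g', h⁆ ⁅g, h⁆) : ⁅g * g', h⁆ = ⁅g, h⁆ * ⁅g', h⁆ := by
  have e : ⁅g * g', h⁆ = (g * ⁅g', h⁆) * g⁻¹ * ⁅g, h⁆ := by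
    simp only [commutatorElement_def]
    group
  rw [e, h1.eq, ← h2.eq]
  group

/-- `[g, h h'] = [g, h] [g, h']` if `h` commutes with `[g, h']` -/
theorem comm_right {Γ : Type} [Group Γ] {g h h' : Γ} (h1 : Commute h ⁅g, h'⁆) :
    ⁅g, h * h'⁆ = ⁅g, h⁆ * ⁅g, h'⁆ := by
  have e : ⁅g, h * h'⁆ = ⁅g, h⁆ * ((h * ⁅g, h'⁆) * h⁻¹) := by
    simp only [commutatorElement_def]
    group
  rw [e, h1.eq]
  group

/-- **linear combinations of words** -/
theorem t_LETB : S_LETB := by
  intro M I Γ _ _ _ X hX
  classical
  have hex : ∀ i j : I, ∃ f : MonoidAlgebra (ZMod 2) M → Γ, i ≠ j →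
      (∀ a b, f (a + b) = f a * f b) ∧ ∀ w, f (MonoidAlgebra.single w 1) = X i j w := by
    intro i j
    by_cases h : i = j
    · exact ⟨fun _ => 1, fun h' => absurd h h'⟩
    · obtain ⟨f, hf⟩ := exists_lin (X i j) (fun w => hX.sq i j w h)
        (fun v w => hX.comm i j i j v w h h (Ne.symm h) h)
      exact ⟨f, fun _ => hf⟩
  choose x hx using hex
  have hadd : ∀ i j, i ≠ j → ∀ a b, x i j (a + b) = x i j a * x i j b :=
    fun i j h => (hx i j h).1
  have hsing : ∀ i j, i ≠ j → ∀ w, x i j (MonoidAlgebra.single w 1) = X i j w :=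
    fun i j h => (hx i j h).2
  have hzero : ∀ i j, i ≠ j → x i j 0 = 1 := fun i j h => f_zero (hadd i j h)
  have hcomm : ∀ i j k l, i ≠ j → k ≠ l → j ≠ k → i ≠ l → ∀ a b,
      Commute (x i j a) (x k l b) := by
    intro i j k l h1 h2 h3 h4 a
    induction a using induct with
    | h0 => intro b; rw [hzero i j h1]; exact Commute.one_left _
    | h2 a a' ha ha' => intro b; rw [hadd i j h1]; exact (ha b).mul_left (ha' b)
    | h1 v =>
      intro b
      rw [hsing i j h1]
      induction b using induct with
      | h0 => rw [hzero k l h2]; exact Commute.one_right _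
      | h2 b b' hb hb' => rw [hadd k l h2]; exact hb.mul_right hb'
      | h1 w => rw [hsing k l h2]; exact hX.comm i j k l v w h1 h2 h3 h4
  refine ⟨x, ⟨hadd, ?_, hcomm⟩, fun i j w h => ?_⟩
  · intro i j k h1 h2 h3 a
    induction a using induct with
    | h0 =>
      intro b
      rw [zero_mul, hzero i j h1, hzero i k h3, commutatorElement_one_left]
    | h2 a a' ha ha' =>
      intro b
      rw [hadd i j h1, add_mul, hadd i k h3, comm_left, ha b, ha' b]
      · rw [ha' b]
        exact hcomm i j i k h1 h3 h1.symm h3 _ _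
      · rw [ha b, ha' b]
        exact hcomm i k i k h3 h3 h3.symm h3 _ _
    | h1 v =>
      intro b
      induction b using induct with
      | h0 => rw [mul_zero, hzero j k h2, hzero i k h3, commutatorElement_one_right]
      | h2 b b' hb hb' =>
        rw [hadd j k h2, mul_add, hadd i k h3, comm_right, hb, hb']
        rw [hb']
        exact hcomm j k i k h2 h3 h3.symm h2 _ _
      | h1 w =>
        rw [hsing i j h1, hsing j k h2, hX.mul i j k v w h1 h2 h3, MonoidAlgebra.single_mul_single,
          one_mul, hsing i k h3]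
  · rw [MonoidAlgebra.of_apply]
    exact hsing i j h w

end Pool.Agent.Y721.BH
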